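import Pool.Agent.H942R3.KK.Stmts3

/-! KK project (helper942), task Struct: the components of a vertex-transitive graph. -/

set_option autoImplicit false

namespace Pool.Agent.H942R3.KK

open Finset

lemma st_reach {k : ℕ} {H : SimpleGraph (Fin k)} (φ : H ≃g H) {x y : Fin k}
    (h : H.Reachable x y) : H.Reachable (φ x) (φ y) := by
  obtain ⟨w⟩ := h
  exact ⟨w.map φ.toHom⟩

lemma st_reach_iff {k : ℕ} {H : SimpleGraph (Fin k)} (φ : H ≃g H) (x y : Fin k) :
    H.Reachable (φ x) (φ y) ↔ H.Reachable x y := by
  constructor
  · intro h
    have := st_reach φ.symm h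
    simpa using this
  · exact st_reach φ

lemma st_deg {k : ℕ} {H : SimpleGraph (Fin k)} (φ : H ≃g H) (x : Fin k) :
    (H.neighborSet (φ x)).ncard = (H.neighborSet x).ncard := by
  have : H.neighborSet (φ x) = φ '' H.neighborSet x := by
    ext z
    simp only [SimpleGraph.mem_neighborSet, Set.mem_image]
    constructor
    · intro h
      refine ⟨φ.symm z, ?_, by simp⟩
      rw [← φ.map_adj_iff]
      simpa using h
    · rintro ⟨w, hw, rfl⟩
      exact φ.map_adj_iff.mpr hw
  rw [this, Set.ncard_image_of_injective _ φ.injective]

/-- Task Struct -/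
theorem taskStruct : TaskStruct := by
  classical
  intro k H hVT x0
  set C := H.connectedComponentMk x0 with hC
  have hmem : ∀ z, z ∈ C.supp ↔ H.Reachable x0 z := by
    intro z
    rw [SimpleGraph.ConnectedComponent.mem_supp_iff, hC]
    constructor
    · intro h; exact (SimpleGraph.ConnectedComponent.exact h).symm
    · intro h; exact SimpleGraph.ConnectedComponent.sound h.symm
  let G0 : SimpleGraph C.supp := H.induce C.supp
  have hx0 : x0 ∈ C.supp := (hmem x0).mpr (SimpleGraph.Reachable.refl x0)
  have hG0 : G0.Connected := C.connected_toSimpleGraph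
  refine ⟨C.supp, inferInstance, G0, hG0, ?_, ?_, ?_, ?_⟩
  · -- vertex transitive
    intro x y
    obtain ⟨φ, hφ⟩ := hVT x.1 y.1
    have hiff : ∀ z, z ∈ C.supp ↔ φ z ∈ C.supp := by
      intro z
      rw [hmem, hmem]
      have hx := (hmem x.1).mp x.2
      have hy := (hmem y.1).mp y.2
      constructor
      · intro hz
        have h1 : H.Reachable (φ x.1) (φ z) := st_reach φ (hx.symm.trans hz)
        rw [hφ] at h1
        exact hy.trans h1
      · intro hz
        have h1 : H.Reachable (φ x.1) (φ z) := by
          rw [hφ]; exact hy.symm.trans hz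
        exact hx.trans ((st_reach_iff φ _ _).mp h1)
    refine ⟨{ toEquiv := φ.toEquiv.subtypeEquiv hiff, map_rel_iff' := ?_ }, ?_⟩
    · intro a b
      exact φ.map_adj_iff
    · exact Subtype.ext hφ
  · -- degrees
    intro y
    obtain ⟨φ, hφ⟩ := hVT x0 y.1
    rw [← st_deg φ x0, hφ, ← Set.ncard_image_of_injective _ Subtype.val_injective]
    congr 1
    ext z
    simp only [Set.mem_image, SimpleGraph.mem_neighborSet]
    constructor
    · rintro ⟨w, hw, rfl⟩
      exact hw
    · intro hz
      have hzC : z ∈ C.supp := (hmem z).mpr (((hmem y.1).mp y.2).trans hz.reachable)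
      exact ⟨⟨z, hzC⟩, hz, rfl⟩
  · -- the copies
    choose φ hφ using fun c : H.ConnectedComponent => hVT x0 c.out
    let g : H.ConnectedComponent → C.supp → Fin k := fun c y => φ c y.1
    have hgc : ∀ c y, H.connectedComponentMk (g c y) = c := by
      intro c y
      have h1 : H.Reachable (φ c x0) (φ c y.1) := st_reach (φ c) ((hmem y.1).mp y.2)
      rw [hφ] at h1
      have h2 : H.connectedComponentMk (φ c y.1) = H.connectedComponentMk c.out :=
        SimpleGraph.ConnectedComponent.sound h1.symm
      have h3 : H.connectedComponentMk c.out = c := Quot.out_eq c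
      exact h2.trans h3
    have hginj : Function.Injective g := by
      intro c c' hcc
      rw [← hgc c ⟨x0, hx0⟩, ← hgc c' ⟨x0, hx0⟩, hcc]
    refine ⟨univ.image g, ?_, ?_, ?_⟩
    · intro f hf
      obtain ⟨c, -, rfl⟩ := Finset.mem_image.mp hf
      refine ⟨?_, ?_⟩
      · intro x y hxy
        exact Subtype.ext ((φ c).injective hxy)
      · intro x y hxy
        exact (φ c).map_adj_iff.mpr hxy
    · intro f hf f' hf' hne x y hxy
      obtain ⟨c, -, rfl⟩ := Finset.mem_image.mp hf
      obtain ⟨c', -, rfl⟩ := Finset.mem_image.mp hf'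
      apply hne
      have : c = c' := by rw [← hgc c x, ← hgc c' y, hxy]
      rw [this]
    · rw [Finset.card_image_of_injective _ hginj, Finset.card_univ]
      have hbij : Function.Bijective (fun p : H.ConnectedComponent × C.supp => g p.1 p.2) := by
        constructor
        · rintro ⟨c, y⟩ ⟨c', y'⟩ h
          have h' : g c y = g c' y' := h
          have hc : c = c' := by rw [← hgc c y, ← hgc c' y', h']
          subst hc
          have hy : y = y' := Subtype.ext ((φ c).injective h')
          rw [hy]
        · intro z
          have h1 : H.Reachable (φ (H.connectedComponentMk z) x0)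
              (φ (H.connectedComponentMk z) ((φ (H.connectedComponentMk z)).symm z)) := by
            rw [hφ]
            have h3 : H.connectedComponentMk (H.connectedComponentMk z).out =
              H.connectedComponentMk z := Quot.out_eq _
            have h4 := SimpleGraph.ConnectedComponent.exact h3
            simpa using h4
          have h2 := (st_reach_iff _ _ _).mp h1
          exact ⟨(H.connectedComponentMk z, ⟨_, (hmem _).mpr h2⟩), by simp [g]⟩
      have := Fintype.card_of_bijective hbij
      rw [Fintype.card_prod, Fintype.card_fin] at this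
      exact this.symm
  · -- connected graphs
    intro V _ G hG hne
    obtain ⟨h, hinj, hadj⟩ := hne
    obtain ⟨v0⟩ := hG.nonempty
    obtain ⟨φ, hφ⟩ := hVT (h v0) x0
    have hr : ∀ v, φ (h v) ∈ C.supp := by
      intro v
      rw [hmem, ← hφ]
      apply st_reach
      obtain ⟨w⟩ := hG.preconnected v0 v
      exact ⟨w.map (⟨h, fun {a b} hab => hadj a b hab⟩ : G →g H)⟩
    refine ⟨fun v => ⟨φ (h v), hr v⟩, ?_, ?_⟩
    · intro x y hxy
      exact hinj (φ.injective (congrArg Subtype.val hxy))
    · intro x y hxy
      exact φ.map_adj_iff.mpr (hadj x y hxy)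

end Pool.Agent.H942R3.KK
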